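import Pool.Agent.H85.UMD.GTH

/-!
Ultimate matching, dual proof, module GDF: the interpolation is close to the step function.
-/

set_option autoImplicit false

open MeasureTheory ProbabilityTheory Finset

namespace Pool.UMD

/-- the values of the interpolation -/
lemma GDF_val (m : ℕ) (F : ℕ → ℕ → ℝ) (x : ℝ × ℝ) :
    GG m F x =
      (F (fo m ⌊x.1 - 1 / 2⌋) (fo m ⌊x.2 - 1 / 2⌋) +
        (F (fo m ⌊x.1 - 1 / 2⌋) (fo m (⌊x.2 - 1 / 2⌋ + 1)) -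
          F (fo m ⌊x.1 - 1 / 2⌋) (fo m ⌊x.2 - 1 / 2⌋)) * sst (Int.fract (x.2 - 1 / 2))) +
      ((F (fo m (⌊x.1 - 1 / 2⌋ + 1)) (fo m ⌊x.2 - 1 / 2⌋) +
        (F (fo m (⌊x.1 - 1 / 2⌋ + 1)) (fo m (⌊x.2 - 1 / 2⌋ + 1)) -
          F (fo m (⌊x.1 - 1 / 2⌋ + 1)) (fo m ⌊x.2 - 1 / 2⌋)) * sst (Int.fract (x.2 - 1 / 2))) -
      (F (fo m ⌊x.1 - 1 / 2⌋) (fo m ⌊x.2 - 1 / 2⌋) +
        (F (fo m ⌊x.1 - 1 / 2⌋) (fo m (⌊x.2 - 1 / 2⌋ + 1)) -
          F (fo m ⌊x.1 - 1 / 2⌋) (fo m ⌊x.2 - 1 / 2⌋)) * sst (Int.fract (x.2 - 1 / 2)))) *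
        sst (Int.fract (x.1 - 1 / 2)) := rfl

lemma GDF_meas (m : ℕ) (F : ℕ → ℕ → ℝ) : Measurable (GG m F) := by
  have h1 : Measurable (fun x : ℝ × ℝ => (⌊x.1 - 1 / 2⌋, ⌊x.2 - 1 / 2⌋)) :=
    (Int.measurable_floor.comp (measurable_fst.sub_const _)).prodMk
      (Int.measurable_floor.comp (measurable_snd.sub_const _))
  have h2 : ∀ H : ℤ × ℤ → ℝ, Measurable (fun x : ℝ × ℝ => H (⌊x.1 - 1 / 2⌋, ⌊x.2 - 1 / 2⌋)) :=
    fun H => (Measurable.of_discrete (f := H)).comp h1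
  have hs : Measurable sst := by unfold sst; fun_prop
  have hs1 : Measurable (fun x : ℝ × ℝ => sst (Int.fract (x.1 - 1 / 2))) :=
    hs.comp (measurable_fract.comp (measurable_fst.sub_const _))
  have hs2 : Measurable (fun x : ℝ × ℝ => sst (Int.fract (x.2 - 1 / 2))) :=
    hs.comp (measurable_fract.comp (measurable_snd.sub_const _))
  have a00 := h2 (fun q => F (fo m q.1) (fo m q.2))
  have a01 := h2 (fun q => F (fo m q.1) (fo m (q.2 + 1)))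
  have a10 := h2 (fun q => F (fo m (q.1 + 1)) (fo m q.2))
  have a11 := h2 (fun q => F (fo m (q.1 + 1)) (fo m (q.2 + 1)))
  have : GG m F = fun x => _ := funext (GDF_val m F)
  rw [this]
  exact (a00.add ((a01.sub a00).mul hs2)).add
    (((a10.add ((a11.sub a10).mul hs2)).sub (a00.add ((a01.sub a00).mul hs2))).mul hs1)

lemma GDF_floor (t : ℝ) : ⌊t⌋ = ⌊t - 1 / 2⌋ ∨ ⌊t⌋ = ⌊t - 1 / 2⌋ + 1 := by
  have h1 := Int.floor_le (t - 1 / 2)
  have h2 := Int.lt_floor_add_one (t - 1 / 2)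
  rcases lt_or_ge t ((⌊t - 1 / 2⌋ : ℝ) + 1) with h | h
  · left
    rw [Int.floor_eq_iff]
    exact ⟨by linarith, h⟩
  · right
    rw [Int.floor_eq_iff]
    push_cast
    exact ⟨h, by linarith⟩

/-- a convex combination of four corners against one corner -/
lemma GDF_conv {a b c d s t z D : ℝ} (hs0 : 0 ≤ s) (hs1 : s ≤ 1) (ht0 : 0 ≤ t) (ht1 : t ≤ 1)
    (ha : |a - z| ≤ D) (hb : |b - z| ≤ D) (hc : |c - z| ≤ D) (hd : |d - z| ≤ D) :
    |(a + (b - a) * s) + ((c + (d - c) * s) - (a + (b - a) * s)) * t - z| ≤ D := by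
  have h1 := GTH_conv hs0 hs1 ha hb
  have h2 := GTH_conv hs0 hs1 hc hd
  have h3 := GTH_conv ht0 ht1 h1 h2
  refine le_trans (le_of_eq ?_) h3
  congr 1
  ring

theorem sGdf : SGdf := by
  refine ⟨8, by norm_num, fun m F w M hm hw => ?_⟩
  have hM : 0 ≤ M := (abs_nonneg _).trans (hw 0 0)
  set P : ℤ → ℤ → ℝ := fun i j => |F (fo m (i + 1)) (fo m j) - F (fo m i) (fo m j)| with hP
  set Q : ℤ → ℤ → ℝ := fun i j => |F (fo m i) (fo m (j + 1)) - F (fo m i) (fo m j)| with hQ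
  have hf : ∀ i : ℤ, fo m (i + 2 * m) = fo m i := FOL_per m
  have hf' : ∀ i : ℤ, fo m (i + 2 * m + 1) = fo m (i + 1) := fun i => by
    rw [add_right_comm, FOL_per]
  have P1 : ∀ i j, P (i + 2 * m) j = P i j := fun i j => by simp only [hP, hf, hf']
  have P2 : ∀ i j, P i (j + 2 * m) = P i j := fun i j => by simp only [hP, hf]
  have Q1 : ∀ i j, Q (i + 2 * m) j = Q i j := fun i j => by simp only [hQ, hf]
  have Q2 : ∀ i j, Q i (j + 2 * m) = Q i j := fun i j => by simp only [hQ, hf, hf']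
  have hlt : ∀ i, fo m i < m := FOL_lt m hm
  obtain ⟨B, hB0, hB⟩ : ∃ B : ℝ, 0 ≤ B ∧ ∀ i j, |F (fo m i) (fo m j)| ≤ B := by
    refine ⟨∑ a ∈ range m, ∑ b ∈ range m, |F a b|,
      Finset.sum_nonneg fun _ _ => Finset.sum_nonneg fun _ _ => abs_nonneg _, fun i j => ?_⟩
    have e1 := Finset.single_le_sum (f := fun b => |F (fo m i) b|) (fun d _ => abs_nonneg _)
      (Finset.mem_range.2 (hlt j))
    have e2 := Finset.single_le_sum (f := fun a => ∑ b ∈ range m, |F a b|)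
      (fun c _ => Finset.sum_nonneg fun _ _ => abs_nonneg _) (Finset.mem_range.2 (hlt i))
    exact e1.trans e2
  have hB1 : ∀ i j, |P i j| ≤ 2 * B := fun i j => by
    simp only [hP, abs_abs]
    have := abs_sub (F (fo m (i + 1)) (fo m j)) (F (fo m i) (fo m j))
    linarith [hB (i + 1) j, hB i j]
  have hB2 : ∀ i j, |Q i j| ≤ 2 * B := fun i j => by
    simp only [hQ, abs_abs]
    have := abs_sub (F (fo m i) (fo m (j + 1))) (F (fo m i) (fo m j))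
    linarith [hB i (j + 1), hB i j]
  obtain ⟨iP, sP⟩ := GTH_two m P _ hB1 P1 P2
  obtain ⟨iP', sP'⟩ := GTH_two m (fun i j => P i (j + 1)) _ (fun i j => hB1 _ _)
    (fun i j => P1 _ _) (fun i j => by
      show P i (j + 2 * m + 1) = P i (j + 1)
      rw [add_right_comm, P2])
  obtain ⟨iQ, sQ⟩ := GTH_two m Q _ hB2 Q1 Q2
  obtain ⟨iQ', sQ'⟩ := GTH_two m (fun i j => Q (i + 1) j) _ (fun i j => hB2 _ _)
    (fun i j => by
      show Q (i + 2 * m + 1) j = Q (i + 1) j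
      rw [add_right_comm, Q1]) (fun i j => Q2 _ _)
  -- the sums
  have SP : ∑ i ∈ range (2 * m), ∑ j ∈ range (2 * m), P i j = 4 * Ed1 m F (fun s => |s|) := by
    have e1 : ∀ i : ℕ, ∑ j ∈ range (2 * m), P i j =
        2 * ∑ j ∈ range m, |F (fo m ((i : ℤ) + 1)) j - F (fo m i) j| := fun i =>
      FOL_sum m (fun j => |F (fo m ((i : ℤ) + 1)) j - F (fo m i) j|)
    rw [Finset.sum_congr rfl fun i _ => e1 i, ← Finset.mul_sum]
    have e2 := GTH_edge m hm (fun a b => ∑ j ∈ range m, |F a j - F b j|)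
      (fun a => by simp) (fun a b => Finset.sum_congr rfl fun j _ => abs_sub_comm _ _)
    rw [e2]
    unfold Ed1
    ring
  have SQ : ∑ i ∈ range (2 * m), ∑ j ∈ range (2 * m), Q i j = 4 * Ed2 m F (fun s => |s|) := by
    rw [Finset.sum_comm]
    have e1 : ∀ j : ℕ, ∑ i ∈ range (2 * m), Q i j =
        2 * ∑ i ∈ range m, |F i (fo m ((j : ℤ) + 1)) - F i (fo m j)| := fun j =>
      FOL_sum m (fun i => |F i (fo m ((j : ℤ) + 1)) - F i (fo m j)|)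
    rw [Finset.sum_congr rfl fun j _ => e1 j, ← Finset.mul_sum]
    have e2 := GTH_edge m hm (fun a b => ∑ i ∈ range m, |F i a - F i b|)
      (fun a => by simp) (fun a b => Finset.sum_congr rfl fun j _ => abs_sub_comm _ _)
    rw [e2]
    unfold Ed2
    rw [Finset.sum_comm]
    ring
  have SP' : ∑ i ∈ range (2 * m), ∑ j ∈ range (2 * m), P i ((j : ℤ) + 1) =
      4 * Ed1 m F (fun s => |s|) := by
    rw [← SP]
    exact Finset.sum_congr rfl fun i _ => GTH_shift m (P i) (P2 i)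
  have SQ' : ∑ i ∈ range (2 * m), ∑ j ∈ range (2 * m), Q ((i : ℤ) + 1) j =
      4 * Ed2 m F (fun s => |s|) := by
    rw [← SQ, Finset.sum_comm, Finset.sum_comm (f := fun (i : ℕ) (j : ℕ) => Q i j)]
    exact Finset.sum_congr rfl fun j _ => GTH_shift m (fun i => Q i j) (fun i => Q1 i j)
  -- the pointwise bound
  have hpt : ∀ x : ℝ × ℝ, |GG m F x - F (fo m ⌊x.1⌋) (fo m ⌊x.2⌋)| ≤
      (P ⌊x.1 - 1 / 2⌋ ⌊x.2 - 1 / 2⌋ + P ⌊x.1 - 1 / 2⌋ (⌊x.2 - 1 / 2⌋ + 1)) +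
        (Q ⌊x.1 - 1 / 2⌋ ⌊x.2 - 1 / 2⌋ + Q (⌊x.1 - 1 / 2⌋ + 1) ⌊x.2 - 1 / 2⌋) := by
    intro x
    have f1 := Int.fract_nonneg (x.1 - 1 / 2)
    have f1' := (Int.fract_lt_one (x.1 - 1 / 2)).le
    have f2 := Int.fract_nonneg (x.2 - 1 / 2)
    have f2' := (Int.fract_lt_one (x.2 - 1 / 2)).le
    have s1 := GTH_sst _ f1 f1'
    have s2 := GTH_sst _ f2 f2'
    rw [GDF_val]
    simp only [hP, hQ]
    set z00 := F (fo m ⌊x.1 - 1 / 2⌋) (fo m ⌊x.2 - 1 / 2⌋)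
    set z01 := F (fo m ⌊x.1 - 1 / 2⌋) (fo m (⌊x.2 - 1 / 2⌋ + 1))
    set z10 := F (fo m (⌊x.1 - 1 / 2⌋ + 1)) (fo m ⌊x.2 - 1 / 2⌋)
    set z11 := F (fo m (⌊x.1 - 1 / 2⌋ + 1)) (fo m (⌊x.2 - 1 / 2⌋ + 1))
    have hz : F (fo m ⌊x.1⌋) (fo m ⌊x.2⌋) = z00 ∨ F (fo m ⌊x.1⌋) (fo m ⌊x.2⌋) = z01 ∨
        F (fo m ⌊x.1⌋) (fo m ⌊x.2⌋) = z10 ∨ F (fo m ⌊x.1⌋) (fo m ⌊x.2⌋) = z11 := by
      rcases GDF_floor x.1 with h | h <;> rcases GDF_floor x.2 with h' | h' <;> rw [h, h']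
      · exact Or.inl rfl
      · exact Or.inr (Or.inl rfl)
      · exact Or.inr (Or.inr (Or.inl rfl))
      · exact Or.inr (Or.inr (Or.inr rfl))
    have n1 := abs_nonneg (z10 - z00)
    have n2 := abs_nonneg (z11 - z01)
    have n3 := abs_nonneg (z01 - z00)
    have n4 := abs_nonneg (z11 - z10)
    have l1 := le_abs_self (z10 - z00)
    have l2 := le_abs_self (z11 - z01)
    have l3 := le_abs_self (z01 - z00)
    have l4 := le_abs_self (z11 - z10)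
    have l1' := neg_abs_le (z10 - z00)
    have l2' := neg_abs_le (z11 - z01)
    have l3' := neg_abs_le (z01 - z00)
    have l4' := neg_abs_le (z11 - z10)
    rcases hz with h | h | h | h <;> rw [h] <;>
      refine GDF_conv s2.1 s2.2 s1.1 s1.2 ?_ ?_ ?_ ?_ <;> rw [abs_le] <;> constructor <;> linarith
  -- the integrals
  obtain ⟨hmw, -, hiw⟩ := (sFol m hm).2.2 (fun i j => w i j * F i j)
  have hmw1 := ((sFol m hm).2.2 w).1
  have hmF := ((sFol m hm).2.2 F).1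
  have hfin : IsFiniteMeasure ((volume : Measure (ℝ × ℝ)).restrict (Box m)) := by
    refine ⟨?_⟩
    unfold Box
    rw [Measure.restrict_apply_univ, Measure.volume_eq_prod, Measure.prod_prod]
    simp only [Real.volume_Ico]
    exact ENNReal.mul_lt_top ENNReal.ofReal_lt_top ENNReal.ofReal_lt_top
  have hGGb : ∀ x, |GG m F x| ≤ B := by
    intro x
    have f1 := Int.fract_nonneg (x.1 - 1 / 2)
    have f1' := (Int.fract_lt_one (x.1 - 1 / 2)).le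
    have f2 := Int.fract_nonneg (x.2 - 1 / 2)
    have f2' := (Int.fract_lt_one (x.2 - 1 / 2)).le
    have s1 := GTH_sst _ f1 f1'
    have s2 := GTH_sst _ f2 f2'
    rw [GDF_val]
    exact GTH_conv s1.1 s1.2 (GTH_conv s2.1 s2.2 (hB _ _) (hB _ _))
      (GTH_conv s2.1 s2.2 (hB _ _) (hB _ _))
  have hi1 : IntegrableOn (fun x : ℝ × ℝ => w (fo m ⌊x.1⌋) (fo m ⌊x.2⌋) * GG m F x) (Box m) :=
    Integrable.of_bound (hmw1.mul (GDF_meas m F)).aestronglyMeasurable (M * B)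
      (Filter.Eventually.of_forall fun x => by
        rw [Real.norm_eq_abs, abs_mul]
        exact mul_le_mul (hw _ _) (hGGb x) (abs_nonneg _) hM)
  have hi2 : IntegrableOn (fun x : ℝ × ℝ => w (fo m ⌊x.1⌋) (fo m ⌊x.2⌋) *
      F (fo m ⌊x.1⌋) (fo m ⌊x.2⌋)) (Box m) :=
    Integrable.of_bound hmw.aestronglyMeasurable (M * B)
      (Filter.Eventually.of_forall fun x => by
        rw [Real.norm_eq_abs, abs_mul]
        exact mul_le_mul (hw _ _) (hB _ _) (abs_nonneg _) hM)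
  have hpr : 4 * pr m w F = ∫ x in Box m, w (fo m ⌊x.1⌋) (fo m ⌊x.2⌋) *
      F (fo m ⌊x.1⌋) (fo m ⌊x.2⌋) := by
    rw [hiw]
    rfl
  rw [hpr, ← integral_sub hi1 hi2]
  have hI : IntegrableOn (fun x : ℝ × ℝ => M * ((P ⌊x.1 - 1 / 2⌋ ⌊x.2 - 1 / 2⌋ +
      P ⌊x.1 - 1 / 2⌋ (⌊x.2 - 1 / 2⌋ + 1)) + (Q ⌊x.1 - 1 / 2⌋ ⌊x.2 - 1 / 2⌋ +
      Q (⌊x.1 - 1 / 2⌋ + 1) ⌊x.2 - 1 / 2⌋))) (Box m) :=
    ((iP.add iP').add (iQ.add iQ')).const_mul M
  have iA : IntegrableOn (fun x : ℝ × ℝ => P ⌊x.1 - 1 / 2⌋ ⌊x.2 - 1 / 2⌋ +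
      P ⌊x.1 - 1 / 2⌋ (⌊x.2 - 1 / 2⌋ + 1)) (Box m) := iP.add iP'
  have iB : IntegrableOn (fun x : ℝ × ℝ => Q ⌊x.1 - 1 / 2⌋ ⌊x.2 - 1 / 2⌋ +
      Q (⌊x.1 - 1 / 2⌋ + 1) ⌊x.2 - 1 / 2⌋) (Box m) := iQ.add iQ'
  have hmain : |∫ x in Box m, (w (fo m ⌊x.1⌋) (fo m ⌊x.2⌋) * GG m F x -
      w (fo m ⌊x.1⌋) (fo m ⌊x.2⌋) * F (fo m ⌊x.1⌋) (fo m ⌊x.2⌋))| ≤
      ∫ x in Box m, M * ((P ⌊x.1 - 1 / 2⌋ ⌊x.2 - 1 / 2⌋ +
      P ⌊x.1 - 1 / 2⌋ (⌊x.2 - 1 / 2⌋ + 1)) + (Q ⌊x.1 - 1 / 2⌋ ⌊x.2 - 1 / 2⌋ +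
      Q (⌊x.1 - 1 / 2⌋ + 1) ⌊x.2 - 1 / 2⌋)) := by
    rw [← Real.norm_eq_abs]
    refine norm_integral_le_of_norm_le hI (Filter.Eventually.of_forall fun x => ?_)
    rw [Real.norm_eq_abs, ← mul_sub, abs_mul]
    exact mul_le_mul (hw _ _) (hpt x) (abs_nonneg _) hM
  refine hmain.trans (le_of_eq ?_)
  rw [integral_const_mul, integral_add iA iB, integral_add iP iP', integral_add iQ iQ', sP, sQ,
    sP', sQ', SP, SQ, SP', SQ']
  ring

end Pool.UMD
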