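import Pool.Agent.H65.UMD.FOL

/-!
Ultimate matching, dual proof, module GTH: the energy of the interpolation.
-/

set_option autoImplicit false

open MeasureTheory ProbabilityTheory Finset

namespace Pool.UMD

lemma GTH_one (m : ℕ) (v : ℤ → ℝ) (hv : ∀ i, v (i + 2 * m) = v i) :
    ∫ t in Set.Ico (0 : ℝ) (2 * m), v ⌊t - 1 / 2⌋ = ∑ i ∈ range (2 * m), v i := by
  have hper : Function.Periodic (fun t : ℝ => v ⌊t⌋) (2 * m) := by
    intro t
    have : t + 2 * (m : ℝ) = t + ((2 * (m : ℤ) : ℤ) : ℝ) := by push_cast; ring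
    simp only [this, Int.floor_add_intCast, hv]
  have h0 : (0 : ℝ) ≤ 2 * m := by positivity
  rw [integral_Ico_eq_integral_Ioc, ← intervalIntegral.integral_of_le h0,
    intervalIntegral.integral_comp_sub_right (fun t : ℝ => v ⌊t⌋) (1 / 2)]
  have h1 := hper.intervalIntegral_add_eq (0 - 1 / 2) 0
  have e1 : (2 * (m : ℝ) - 1 / 2) = 0 - 1 / 2 + 2 * m := by ring
  rw [e1, h1, zero_add, intervalIntegral.integral_of_le h0, ← integral_Ico_eq_integral_Ioc]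
  have h2 := (FOL_one v (2 * m)).2
  push_cast at h2
  exact h2

lemma GTH_two (m : ℕ) (P : ℤ → ℤ → ℝ) (B : ℝ) (hB : ∀ i j, |P i j| ≤ B)
    (h1 : ∀ i j, P (i + 2 * m) j = P i j) (h2 : ∀ i j, P i (j + 2 * m) = P i j) :
    IntegrableOn (fun x : ℝ × ℝ => P ⌊x.1 - 1 / 2⌋ ⌊x.2 - 1 / 2⌋) (Box m) ∧
      ∫ x in Box m, P ⌊x.1 - 1 / 2⌋ ⌊x.2 - 1 / 2⌋ =
        ∑ i ∈ range (2 * m), ∑ j ∈ range (2 * m), P i j := by
  have hmeas : Measurable (fun x : ℝ × ℝ => P ⌊x.1 - 1 / 2⌋ ⌊x.2 - 1 / 2⌋) := by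
    have h1 : Measurable (fun x : ℝ × ℝ => (⌊x.1 - 1 / 2⌋, ⌊x.2 - 1 / 2⌋)) :=
      (Int.measurable_floor.comp (measurable_fst.sub_const _)).prodMk
        (Int.measurable_floor.comp (measurable_snd.sub_const _))
    have h2 : Measurable (fun q : ℤ × ℤ => P q.1 q.2) := Measurable.of_discrete
    exact h2.comp h1
  have hint : IntegrableOn (fun x : ℝ × ℝ => P ⌊x.1 - 1 / 2⌋ ⌊x.2 - 1 / 2⌋) (Box m) := by
    have : IsFiniteMeasure ((volume : Measure (ℝ × ℝ)).restrict (Box m)) := by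
      refine ⟨?_⟩
      unfold Box
      rw [Measure.restrict_apply_univ, Measure.volume_eq_prod, Measure.prod_prod]
      simp only [Real.volume_Ico]
      exact ENNReal.mul_lt_top ENNReal.ofReal_lt_top ENNReal.ofReal_lt_top
    exact Integrable.of_bound hmeas.aestronglyMeasurable B (Filter.Eventually.of_forall fun x => by
      rw [Real.norm_eq_abs]
      exact hB _ _)
  refine ⟨hint, ?_⟩
  unfold Box at hint ⊢
  rw [Measure.volume_eq_prod, setIntegral_prod _ hint]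
  have h3 : ∀ x : ℝ, ∫ y in Set.Ico (0 : ℝ) (2 * m), P ⌊x - 1 / 2⌋ ⌊y - 1 / 2⌋ =
      ∑ j ∈ range (2 * m), P ⌊x - 1 / 2⌋ j := fun x => GTH_one m (P ⌊x - 1 / 2⌋) (h2 _)
  simp only [h3]
  exact GTH_one m (fun i => ∑ j ∈ range (2 * m), P i j) (fun i => by simp only [h1])

lemma GTH_shift (m : ℕ) (v : ℤ → ℝ) (hv : ∀ i, v (i + 2 * m) = v i) :
    ∑ i ∈ range (2 * m), v ((i : ℤ) + 1) = ∑ i ∈ range (2 * m), v i := by
  have h1 := Finset.sum_range_succ (fun i : ℕ => v (i : ℤ)) (2 * m)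
  have h2 := Finset.sum_range_succ' (fun i : ℕ => v (i : ℤ)) (2 * m)
  rw [h1] at h2
  have h3 : v ((2 * m : ℕ) : ℤ) = v ((0 : ℕ) : ℤ) := by
    have := hv 0
    push_cast
    simpa using this
  rw [h3] at h2
  have h4 := add_right_cancel h2
  rw [h4]
  push_cast
  rfl

lemma GTH_edge (m : ℕ) (hm : 1 ≤ m) (R : ℕ → ℕ → ℝ) (h0 : ∀ a, R a a = 0)
    (hs : ∀ a b, R a b = R b a) :
    ∑ i ∈ range (2 * m), R (fo m ((i : ℤ) + 1)) (fo m i) =
      2 * ∑ i ∈ range (m - 1), R (i + 1) i := by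
  obtain ⟨k, rfl⟩ : ∃ k, m = k + 1 := ⟨m - 1, by omega⟩
  have hk : k + 1 - 1 = k := rfl
  rw [hk, two_mul, Finset.sum_range_add, two_mul]
  congr 1
  · rw [Finset.sum_range_succ]
    have e1 : fo (k + 1) ((k : ℤ) + 1) = k := by
      have := FOL_hi (k + 1) 0 (by omega)
      simpa using this
    have e2 : fo (k + 1) (k : ℤ) = k := FOL_lo (k + 1) k (by omega)
    rw [e1, e2, h0, add_zero]
    refine Finset.sum_congr rfl fun i hi => ?_
    have hi' := Finset.mem_range.1 hi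
    have e3 : fo (k + 1) ((i : ℤ) + 1) = i + 1 := by
      have := FOL_lo (k + 1) (i + 1) (by omega)
      simpa using this
    rw [e3, FOL_lo (k + 1) i (by omega)]
  · rw [Finset.sum_range_succ]
    have e1 : fo (k + 1) (((k + 1 + k : ℕ) : ℤ) + 1) = 0 := by
      have h1 := FOL_per (k + 1) 0
      have h2 : fo (k + 1) 0 = 0 := by simpa using FOL_lo (k + 1) 0 (by omega)
      rw [← h1] at h2
      rw [← h2]
      congr 1
      push_cast
      ring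
    have e2 : fo (k + 1) ((k + 1 + k : ℕ) : ℤ) = 0 := by
      rw [FOL_hi (k + 1) k (by omega)]
      omega
    rw [e1, e2, h0, add_zero, ← Finset.sum_range_reflect]
    refine Finset.sum_congr rfl fun i hi => ?_
    have hi' := Finset.mem_range.1 hi
    have e3 : fo (k + 1) (((k + 1 + (k - 1 - i) : ℕ) : ℤ) + 1) = i := by
      have := FOL_hi (k + 1) (k - 1 - i + 1) (by omega)
      have e4 : (((k + 1 + (k - 1 - i) : ℕ) : ℤ) + 1) = ((k + 1 + (k - 1 - i + 1) : ℕ) : ℤ) := by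
        push_cast
        ring
      rw [e4, this]
      omega
    rw [e3, FOL_hi (k + 1) (k - 1 - i) (by omega), hs]
    congr 1
    omega

lemma GTH_sst (t : ℝ) (h0 : 0 ≤ t) (h1 : t ≤ 1) : 0 ≤ sst t ∧ sst t ≤ 1 := by
  unfold sst
  constructor
  · nlinarith [sq_nonneg t, mul_nonneg (sq_nonneg t) (by linarith : 0 ≤ 3 - 2 * t)]
  · nlinarith [mul_nonneg (sq_nonneg (1 - t)) (by linarith : 0 ≤ 1 + 2 * t)]

lemma GTH_kap (t : ℝ) : 6 * t * (1 - t) ≤ 3 / 2 := by nlinarith [sq_nonneg (2 * t - 1)]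

lemma GTH_conv {d e s M : ℝ} (h0 : 0 ≤ s) (h1 : s ≤ 1) (hd : |d| ≤ M) (he : |e| ≤ M) :
    |d + (e - d) * s| ≤ M := by
  rw [abs_le] at hd he ⊢
  constructor <;> nlinarith

/-- the pointwise estimate of the two derivatives -/
lemma GTH_psi (h : SPsi) {β : ℝ} (h0 : 0 < β) (h1 : β ≤ 1 / 2) {d e s t x : ℝ} (hs0 : 0 ≤ s)
    (hs1 : s ≤ 1) (ht0 : 0 ≤ t) (ht1 : t ≤ 3 / 2) (hx : x = (d + (e - d) * s) * t) :
    psi β x ≤ 3 * (psi β d + psi β e) := by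
  obtain ⟨p1, p2, p3, -⟩ := h β h0 h1
  have hpos : ∀ s, 0 ≤ psi β s := fun s => (abs_nonneg s).trans (p1 s)
  have hM := GTH_conv hs0 hs1 (le_max_left |d| |e|) (le_max_right |d| |e|)
  have hM0 : 0 ≤ max |d| |e| := (abs_nonneg d).trans (le_max_left _ _)
  have hx' : |x| ≤ |3 / 2 * max (|d|) (|e|)| := by
    rw [hx, abs_mul, abs_of_nonneg ht0, abs_of_nonneg (by positivity : 0 ≤ 3 / 2 * max (|d|) (|e|))]
    nlinarith [abs_nonneg (d + (e - d) * s)]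
  have h4 := (p2 _ _ hx').trans (p3 _)
  refine h4.trans (mul_le_mul_of_nonneg_left ?_ (by norm_num))
  rcases le_total |d| |e| with hde | hde
  · rw [max_eq_right hde]
    have : psi β |e| ≤ psi β e := p2 _ _ (by simp)
    linarith [hpos d]
  · rw [max_eq_left hde]
    have : psi β |d| ≤ psi β d := p2 _ _ (by simp)
    linarith [hpos e]

lemma GTH_psi_neg (β s : ℝ) : psi β (-s) = psi β s := by
  unfold psi
  rw [abs_neg, neg_sq]

lemma GTH_psi_zero (β : ℝ) : psi β 0 = 0 := by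
  unfold psi
  simp

theorem sGth (h1 : STht) (h2 : SPsi) : SGth := by
  intro β₁ β₂ hb1 hb2 hb
  obtain ⟨C, hC, hth⟩ := h1 β₁ β₂ hb1 hb2 hb
  refine ⟨24 * C, by positivity, fun m F hm => ?_⟩
  have hp1 : ∀ s, 0 ≤ psi β₁ s := fun s => (abs_nonneg s).trans ((h2 β₁ hb1 (by linarith)).1 s)
  have hp2 : ∀ s, 0 ≤ psi β₂ s := fun s => (abs_nonneg s).trans ((h2 β₂ hb2 (by linarith)).1 s)
  -- the two functions on `ℤ × ℤ`
  set P : ℤ → ℤ → ℝ := fun i j => psi β₁ (F (fo m (i + 1)) (fo m j) - F (fo m i) (fo m j)) with hP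
  set Q : ℤ → ℤ → ℝ := fun i j => psi β₂ (F (fo m i) (fo m (j + 1)) - F (fo m i) (fo m j)) with hQ
  have hf : ∀ i : ℤ, fo m (i + 2 * m) = fo m i := FOL_per m
  have hf' : ∀ i : ℤ, fo m (i + 2 * m + 1) = fo m (i + 1) := fun i => by
    rw [add_right_comm, FOL_per]
  have P1 : ∀ i j, P (i + 2 * m) j = P i j := fun i j => by simp only [hP, hf, hf']
  have P2 : ∀ i j, P i (j + 2 * m) = P i j := fun i j => by simp only [hP, hf]
  have Q1 : ∀ i j, Q (i + 2 * m) j = Q i j := fun i j => by simp only [hQ, hf]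
  have Q2 : ∀ i j, Q i (j + 2 * m) = Q i j := fun i j => by simp only [hQ, hf, hf']
  have hbd : ∀ H : ℕ → ℕ → ℕ → ℕ → ℝ, ∃ B : ℝ, ∀ a b c d, a < m → b < m → c < m → d < m →
      |H a b c d| ≤ B := by
    intro H
    refine ⟨∑ a ∈ range m, ∑ b ∈ range m, ∑ c ∈ range m, ∑ d ∈ range m, |H a b c d|,
      fun a b c d ha hb hc hd => ?_⟩
    have e1 := Finset.single_le_sum (f := fun d => |H a b c d|) (fun d _ => abs_nonneg _)
      (Finset.mem_range.2 hd)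
    have e2 := Finset.single_le_sum (f := fun c => ∑ d ∈ range m, |H a b c d|)
      (fun c _ => Finset.sum_nonneg fun _ _ => abs_nonneg _) (Finset.mem_range.2 hc)
    have e3 := Finset.single_le_sum (f := fun b => ∑ c ∈ range m, ∑ d ∈ range m, |H a b c d|)
      (fun b _ => Finset.sum_nonneg fun _ _ => Finset.sum_nonneg fun _ _ => abs_nonneg _)
      (Finset.mem_range.2 hb)
    have e4 := Finset.single_le_sum
      (f := fun a => ∑ b ∈ range m, ∑ c ∈ range m, ∑ d ∈ range m, |H a b c d|)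
      (fun a _ => Finset.sum_nonneg fun _ _ => Finset.sum_nonneg fun _ _ =>
        Finset.sum_nonneg fun _ _ => abs_nonneg _)
      (Finset.mem_range.2 ha)
    exact e1.trans (e2.trans (e3.trans e4))
  have hlt : ∀ i, fo m i < m := FOL_lt m hm
  obtain ⟨B1, hB1⟩ : ∃ B : ℝ, ∀ i j, |P i j| ≤ B := by
    obtain ⟨B, hB⟩ := hbd (fun a b c _ => psi β₁ (F a c - F b c))
    exact ⟨B, fun i j => hB _ _ _ (fo m j) (hlt _) (hlt _) (hlt _) (hlt _)⟩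
  obtain ⟨B2, hB2⟩ : ∃ B : ℝ, ∀ i j, |Q i j| ≤ B := by
    obtain ⟨B, hB⟩ := hbd (fun a b c _ => psi β₂ (F a b - F a c))
    exact ⟨B, fun i j => hB _ _ _ (fo m j) (hlt _) (hlt _) (hlt _) (hlt _)⟩
  obtain ⟨iP, sP⟩ := GTH_two m P B1 hB1 P1 P2
  obtain ⟨iP', sP'⟩ := GTH_two m (fun i j => P i (j + 1)) B1 (fun i j => hB1 _ _)
    (fun i j => P1 _ _) (fun i j => by
      show P i (j + 2 * m + 1) = P i (j + 1)
      rw [add_right_comm, P2])
  obtain ⟨iQ, sQ⟩ := GTH_two m Q B2 hB2 Q1 Q2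
  obtain ⟨iQ', sQ'⟩ := GTH_two m (fun i j => Q (i + 1) j) B2 (fun i j => hB2 _ _)
    (fun i j => by
      show Q (i + 2 * m + 1) j = Q (i + 1) j
      rw [add_right_comm, Q1]) (fun i j => Q2 _ _)
  -- the sums
  have SP : ∑ i ∈ range (2 * m), ∑ j ∈ range (2 * m), P i j = 4 * Ed1 m F (psi β₁) := by
    have e1 : ∀ i : ℕ, ∑ j ∈ range (2 * m), P i j =
        2 * ∑ j ∈ range m, psi β₁ (F (fo m ((i : ℤ) + 1)) j - F (fo m i) j) := fun i =>
      FOL_sum m (fun j => psi β₁ (F (fo m ((i : ℤ) + 1)) j - F (fo m i) j))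
    rw [Finset.sum_congr rfl fun i _ => e1 i, ← Finset.mul_sum]
    have e2 := GTH_edge m hm (fun a b => ∑ j ∈ range m, psi β₁ (F a j - F b j))
      (fun a => by simp [GTH_psi_zero]) (fun a b => Finset.sum_congr rfl fun j _ => by
        rw [← GTH_psi_neg]
        congr 1
        ring)
    rw [e2]
    unfold Ed1
    ring
  have SQ : ∑ i ∈ range (2 * m), ∑ j ∈ range (2 * m), Q i j = 4 * Ed2 m F (psi β₂) := by
    rw [Finset.sum_comm]
    have e1 : ∀ j : ℕ, ∑ i ∈ range (2 * m), Q i j =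
        2 * ∑ i ∈ range m, psi β₂ (F i (fo m ((j : ℤ) + 1)) - F i (fo m j)) := fun j =>
      FOL_sum m (fun i => psi β₂ (F i (fo m ((j : ℤ) + 1)) - F i (fo m j)))
    rw [Finset.sum_congr rfl fun j _ => e1 j, ← Finset.mul_sum]
    have e2 := GTH_edge m hm (fun a b => ∑ i ∈ range m, psi β₂ (F i a - F i b))
      (fun a => by simp [GTH_psi_zero]) (fun a b => Finset.sum_congr rfl fun j _ => by
        rw [← GTH_psi_neg]
        congr 1
        ring)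
    rw [e2]
    unfold Ed2
    rw [Finset.sum_comm]
    ring
  have SP' : ∑ i ∈ range (2 * m), ∑ j ∈ range (2 * m), P i ((j : ℤ) + 1) =
      4 * Ed1 m F (psi β₁) := by
    rw [← SP]
    exact Finset.sum_congr rfl fun i _ => GTH_shift m (P i) (P2 i)
  have SQ' : ∑ i ∈ range (2 * m), ∑ j ∈ range (2 * m), Q ((i : ℤ) + 1) j =
      4 * Ed2 m F (psi β₂) := by
    rw [← SQ, Finset.sum_comm, Finset.sum_comm (f := fun (i : ℕ) (j : ℕ) => Q i j)]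
    exact Finset.sum_congr rfl fun j _ => GTH_shift m (fun i => Q i j) (fun i => Q1 i j)
  -- the pointwise bound
  have hpt : ∀ x : ℝ × ℝ, th β₁ β₂ 16 (GG1 m F x, GG2 m F x) ≤
      C * (1 + 3 * (P ⌊x.1 - 1 / 2⌋ ⌊x.2 - 1 / 2⌋ + P ⌊x.1 - 1 / 2⌋ (⌊x.2 - 1 / 2⌋ + 1)) +
        3 * (Q ⌊x.1 - 1 / 2⌋ ⌊x.2 - 1 / 2⌋ + Q (⌊x.1 - 1 / 2⌋ + 1) ⌊x.2 - 1 / 2⌋)) := by
    intro x
    refine (hth _).trans (mul_le_mul_of_nonneg_left ?_ hC.le)
    have f1 := Int.fract_nonneg (x.1 - 1 / 2)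
    have f1' := (Int.fract_lt_one (x.1 - 1 / 2)).le
    have f2 := Int.fract_nonneg (x.2 - 1 / 2)
    have f2' := (Int.fract_lt_one (x.2 - 1 / 2)).le
    have s1 := GTH_sst _ f1 f1'
    have s2 := GTH_sst _ f2 f2'
    have k1 := GTH_kap (Int.fract (x.1 - 1 / 2))
    have k2 := GTH_kap (Int.fract (x.2 - 1 / 2))
    have n1 : 0 ≤ 6 * Int.fract (x.1 - 1 / 2) * (1 - Int.fract (x.1 - 1 / 2)) :=
      mul_nonneg (by positivity) (by linarith)
    have n2 : 0 ≤ 6 * Int.fract (x.2 - 1 / 2) * (1 - Int.fract (x.2 - 1 / 2)) :=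
      mul_nonneg (by positivity) (by linarith)
    have a1 := GTH_psi h2 hb1 (by linarith) (d := F (fo m (⌊x.1 - 1 / 2⌋ + 1)) (fo m ⌊x.2 - 1 / 2⌋) -
        F (fo m ⌊x.1 - 1 / 2⌋) (fo m ⌊x.2 - 1 / 2⌋))
      (e := F (fo m (⌊x.1 - 1 / 2⌋ + 1)) (fo m (⌊x.2 - 1 / 2⌋ + 1)) -
        F (fo m ⌊x.1 - 1 / 2⌋) (fo m (⌊x.2 - 1 / 2⌋ + 1))) s2.1 s2.2 n1 k1 (x := GG1 m F x) (by
        simp only [GG1, ip', ip]
        ring)
    have a2 := GTH_psi h2 hb2 (by linarith) (d := F (fo m ⌊x.1 - 1 / 2⌋) (fo m (⌊x.2 - 1 / 2⌋ + 1)) -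
        F (fo m ⌊x.1 - 1 / 2⌋) (fo m ⌊x.2 - 1 / 2⌋))
      (e := F (fo m (⌊x.1 - 1 / 2⌋ + 1)) (fo m (⌊x.2 - 1 / 2⌋ + 1)) -
        F (fo m (⌊x.1 - 1 / 2⌋ + 1)) (fo m ⌊x.2 - 1 / 2⌋)) s1.1 s1.2 n2 k2 (x := GG2 m F x) (by
        simp only [GG2, ip', ip]
        ring)
    show 1 + psi β₁ (GG1 m F x) + psi β₂ (GG2 m F x) ≤ _
    simp only [hP, hQ]
    linarith
  have hbox : volume (Box m) = ENNReal.ofReal (4 * (m : ℝ) ^ 2) := by
    unfold Box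
    rw [Measure.volume_eq_prod, Measure.prod_prod, Real.volume_Ico,
      ← ENNReal.ofReal_mul (by simp)]
    congr 1
    ring
  have i1 : IntegrableOn (fun _ : ℝ × ℝ => (1 : ℝ)) (Box m) :=
    integrableOn_const (by rw [hbox]; exact ENNReal.ofReal_ne_top) (by simp)
  have hI : IntegrableOn (fun x : ℝ × ℝ => C * (1 + 3 * (P ⌊x.1 - 1 / 2⌋ ⌊x.2 - 1 / 2⌋ +
      P ⌊x.1 - 1 / 2⌋ (⌊x.2 - 1 / 2⌋ + 1)) + 3 * (Q ⌊x.1 - 1 / 2⌋ ⌊x.2 - 1 / 2⌋ +
      Q (⌊x.1 - 1 / 2⌋ + 1) ⌊x.2 - 1 / 2⌋))) (Box m) :=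
    (((i1.add ((iP.add iP').const_mul 3)).add ((iQ.add iQ').const_mul 3)).const_mul C)
  have hmono : ∫ x in Box m, th β₁ β₂ 16 (GG1 m F x, GG2 m F x) ≤
      ∫ x in Box m, C * (1 + 3 * (P ⌊x.1 - 1 / 2⌋ ⌊x.2 - 1 / 2⌋ +
      P ⌊x.1 - 1 / 2⌋ (⌊x.2 - 1 / 2⌋ + 1)) + 3 * (Q ⌊x.1 - 1 / 2⌋ ⌊x.2 - 1 / 2⌋ +
      Q (⌊x.1 - 1 / 2⌋ + 1) ⌊x.2 - 1 / 2⌋)) := by
    refine integral_mono_of_nonneg (Filter.Eventually.of_forall fun x => ?_) hI
      (Filter.Eventually.of_forall hpt)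
    show (0 : ℝ) ≤ th β₁ β₂ 16 (GG1 m F x, GG2 m F x)
    exact add_nonneg zero_le_one (Real.sqrt_nonneg _)
  refine hmono.trans ?_
  have iA : IntegrableOn (fun x : ℝ × ℝ => 3 * (P ⌊x.1 - 1 / 2⌋ ⌊x.2 - 1 / 2⌋ +
      P ⌊x.1 - 1 / 2⌋ (⌊x.2 - 1 / 2⌋ + 1))) (Box m) := (iP.add iP').const_mul 3
  have iB : IntegrableOn (fun x : ℝ × ℝ => 3 * (Q ⌊x.1 - 1 / 2⌋ ⌊x.2 - 1 / 2⌋ +
      Q (⌊x.1 - 1 / 2⌋ + 1) ⌊x.2 - 1 / 2⌋)) (Box m) := (iQ.add iQ').const_mul 3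
  have iC : IntegrableOn (fun x : ℝ × ℝ => 1 + 3 * (P ⌊x.1 - 1 / 2⌋ ⌊x.2 - 1 / 2⌋ +
      P ⌊x.1 - 1 / 2⌋ (⌊x.2 - 1 / 2⌋ + 1))) (Box m) := i1.add iA
  rw [integral_const_mul, integral_add iC iB, integral_add i1 iA, integral_const_mul,
    integral_const_mul, integral_add iP iP', integral_add iQ iQ', sP, sQ, sP', sQ', SP, SQ, SP',
    SQ', setIntegral_const, measureReal_def, hbox, ENNReal.toReal_ofReal (by positivity)]
  simp only [smul_eq_mul]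
  have : 0 ≤ C * (m : ℝ) ^ 2 := by positivity
  linarith

end Pool.UMD
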